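import Pool.Agent.Lib.MP_64d474_lc.Kal.Defs

/-!
# Formulas over the `w × w` matrices with univariate leaves and their test points
-/

set_option autoImplicit false

open Finset

namespace Pool.Agent.Lib.MP_64d474_lc.MG

/-- formulas over the `w × w` matrices: the leaves are constant matrices and matrices of
polynomials in one variable, the gates are sums, products and inverses -/
inductive MFm (F : Type*) [Field F] (w m : ℕ)
  | const (C : Matrix (Fin w) (Fin w) F) : MFm F w m
  | leaf (k : Fin m) (p : Matrix (Fin w) (Fin w) (Polynomial F)) : MFm F w m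
  | add (a b : MFm F w m) : MFm F w m
  | mul (a b : MFm F w m) : MFm F w m
  | inv (a : MFm F w m) : MFm F w m

namespace MFm

variable {F : Type*} [Field F] {w m : ℕ}

/-- `Val x φ V`: the formula `φ` can be evaluated at the point `x`, that is, no gate of `φ` inverts
a singular matrix there, and `V` is its value -/
inductive Val (x : Fin m → F) : MFm F w m → Matrix (Fin w) (Fin w) F → Prop
  | const (C : Matrix (Fin w) (Fin w) F) : Val x (.const C) C
  | leaf (k : Fin m) (p : Matrix (Fin w) (Fin w) (Polynomial F)) :
      Val x (.leaf k p) (p.map (Polynomial.eval (x k)))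
  | add {a b : MFm F w m} {U V : Matrix (Fin w) (Fin w) F} (ha : Val x a U) (hb : Val x b V) :
      Val x (.add a b) (U + V)
  | mul {a b : MFm F w m} {U V : Matrix (Fin w) (Fin w) F} (ha : Val x a U) (hb : Val x b V) :
      Val x (.mul a b) (U * V)
  | inv {a : MFm F w m} {U : Matrix (Fin w) (Fin w) F} (ha : Val x a U) (hU : U.det ≠ 0) :
      Val x (.inv a) U⁻¹

/-- the polynomials in the leaves have degree at most `e` -/
def DegLe (e : ℕ) : MFm F w m → Prop
  | .const _ => True
  | .leaf _ p => ∀ i j, (p i j).natDegree ≤ e
  | .add a b => a.DegLe e ∧ b.DegLe e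
  | .mul a b => a.DegLe e ∧ b.DegLe e
  | .inv a => a.DegLe e

/-- the number of leaves with the variable `k` -/
def occ (k : Fin m) : MFm F w m → ℕ
  | .const _ => 0
  | .leaf l _ => if l = k then 1 else 0
  | .add a b => a.occ k + b.occ k
  | .mul a b => a.occ k + b.occ k
  | .inv a => a.occ k

/-- the number of leaves with variables -/
def leaves : MFm F w m → ℕ
  | .const _ => 0
  | .leaf _ _ => 1
  | .add a b => a.leaves + b.leaves
  | .mul a b => a.leaves + b.leaves
  | .inv a => a.leaves

/-- the number of inversion gates -/
def invs : MFm F w m → ℕ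
  | .const _ => 0
  | .leaf _ _ => 0
  | .add a b => a.invs + b.invs
  | .mul a b => a.invs + b.invs
  | .inv a => a.invs + 1

theorem sum_occ (φ : MFm F w m) : ∑ k, φ.occ k = φ.leaves := by
  induction φ with
  | const C => simp [occ, leaves]
  | leaf l p => simp [occ, leaves]
  | add a b ha hb => simp only [occ, leaves, sum_add_distrib, ha, hb]
  | mul a b ha hb => simp only [occ, leaves, sum_add_distrib, ha, hb]
  | inv a ha => simp only [occ, leaves, ha]

end MFm

/-- the points for formulas over the `w × w` matrices with `s` leaves of degree `e` and `g`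
inversion gates -/
noncomputable def matrixTests (m w e s g : ℕ) : Finset (Fin m → ℕ) :=
  Kal.hits m (2 * w * (Nat.sqrt s + 1)) (18 * w * (Nat.sqrt s + w)) (s * w * e * (g + 1))

end Pool.Agent.Lib.MP_64d474_lc.MG
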