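import Pool.Agent.Lib.MP_64d474_lc.MG.Defs99
import Pool.Agent.Lib.MP_64d474_lc.Kal.Card

/-!
# The number of the test points for formulas over matrices
-/

set_option autoImplicit false

open Finset

namespace Pool.Agent.Lib.MP_64d474_lc.MG

open Pool.Agent.Lib.MP_64d474_lc.Kal

theorem num1_99 (s w : ℕ) (hw : 1 ≤ w) :
    2 * (s / (Nat.sqrt s / w + 1)) + 2 ≤ 2 * w * (Nat.sqrt s + 1) := by
  set r := Nat.sqrt s with hr
  have h1 : s < (r + 1) * (r + 1) := Nat.lt_succ_sqrt s
  have h2 : r < w * (r / w + 1) := Nat.lt_mul_div_succ r hw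
  have h3 : s < w * (r + 1) * (r / w + 1) := by
    calc s < (r + 1) * (r + 1) := h1
      _ ≤ (r + 1) * (w * (r / w + 1)) := Nat.mul_le_mul_left _ h2
      _ = w * (r + 1) * (r / w + 1) := by ring
  have h4 : s / (r / w + 1) < w * (r + 1) := (Nat.div_lt_iff_lt_mul (Nat.succ_pos _)).2 h3
  calc 2 * (s / (r / w + 1)) + 2 = 2 * (s / (r / w + 1) + 1) := by ring
    _ ≤ 2 * (w * (r + 1)) := Nat.mul_le_mul_left _ h4
    _ = 2 * w * (r + 1) := by ring

theorem num2_99 (s w : ℕ) :
    18 * (Nat.sqrt s / w + 1) * w ^ 2 ≤ 18 * w * (Nat.sqrt s + w) := by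
  set r := Nat.sqrt s with hr
  have h1 : w * (r / w) ≤ r := Nat.mul_div_le r w
  calc 18 * (r / w + 1) * w ^ 2 = 18 * w * (w * (r / w) + w) := by ring
    _ ≤ 18 * w * (r + w) := Nat.mul_le_mul_left _ (Nat.add_le_add_right h1 _)

theorem card_matrixTests99 (hC : StCard) (m w e s g : ℕ) (hw : 1 ≤ w) :
    (matrixTests m w e s g).card ≤
      ((m + 1) ^ 2 * (s * w * e * (g + 1) + 2) ^ 26) ^ (w * (Nat.sqrt s + w)) := by
  unfold matrixTests
  refine (hC _ _ _ _).1.trans ?_
  set r := Nat.sqrt s with hr
  set D := s * w * e * (g + 1) with hD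
  have hsq : r * r ≤ s := Nat.sqrt_le s
  have hsD : 0 < D → s * w ≤ D := by
    intro h
    rcases Nat.eq_zero_or_pos e with he | he
    · rw [hD, he] at h
      simp at h
    · calc s * w ≤ s * w * e := Nat.le_mul_of_pos_right _ he
        _ ≤ D := Nat.le_mul_of_pos_right _ (Nat.succ_pos _)
  have key : (18 * w * (r + w) * D + 1) ^ (r + 1) ≤ (D + 2) ^ (4 * (r + w)) := by
    rcases Nat.eq_zero_or_pos D with h0 | h0
    · rw [h0]
      simp only [mul_zero, zero_add, one_pow]
      exact Nat.one_le_pow _ _ (by norm_num)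
    · rcases le_or_gt w r with hwr | hwr
      · have h1 : w * r ≤ D := by
          have : w * r ≤ s * w := by
            calc w * r ≤ w * (r * r) := Nat.mul_le_mul_left _ (Nat.le_mul_self r)
              _ ≤ w * s := Nat.mul_le_mul_left _ hsq
              _ = s * w := Nat.mul_comm _ _
          exact this.trans (hsD h0)
        have h2 : 18 * w * (r + w) * D + 1 ≤ (D + 2) ^ 4 := by
          have h3 : 18 * w * (r + w) ≤ 36 * D := by
            calc 18 * w * (r + w) ≤ 18 * w * (r + r) :=
                  Nat.mul_le_mul_left _ (Nat.add_le_add_left hwr _)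
              _ = 36 * (w * r) := by ring
              _ ≤ 36 * D := Nat.mul_le_mul_left _ h1
          have h4 : 36 * D * D + 1 ≤ (D + 2) ^ 4 := by
            have h5 : D * D ≤ D * D * D := Nat.le_mul_of_pos_right _ h0
            have h6 : D ≤ D * D := Nat.le_mul_of_pos_right _ h0
            have h7 : D * D * D ≤ D * D * D * D := Nat.le_mul_of_pos_right _ h0
            have e : (D + 2) ^ 4 = D * D * D * D + 8 * (D * D * D) + 24 * (D * D) + 32 * D + 16 := by
              ring
            have e' : 36 * D * D + 1 = 36 * (D * D) + 1 := by ring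
            rw [e, e']
            rcases Nat.eq_or_lt_of_le h0 with h8 | h8
            · rw [← h8]; norm_num
            · have h9 : 2 * (D * D) ≤ D * D * D := by
                calc 2 * (D * D) ≤ D * (D * D) := Nat.mul_le_mul_right _ h8
                  _ = D * D * D := by ring
              omega
          calc 18 * w * (r + w) * D + 1 ≤ 36 * D * D + 1 :=
                Nat.add_le_add_right (Nat.mul_le_mul_right _ h3) _
            _ ≤ (D + 2) ^ 4 := h4
        calc (18 * w * (r + w) * D + 1) ^ (r + 1) ≤ ((D + 2) ^ 4) ^ (r + 1) :=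
              Nat.pow_le_pow_left h2 _
          _ = (D + 2) ^ (4 * (r + 1)) := by rw [← pow_mul]
          _ ≤ (D + 2) ^ (4 * (r + w)) := Nat.pow_le_pow_right (by omega) (by omega)
      · have hs0 : 1 ≤ s := by
          rcases Nat.eq_zero_or_pos s with h | h
          · rw [hD, h] at h0
            simp at h0
          · exact h
        have hwD : w ≤ D := (Nat.le_mul_of_pos_left w hs0).trans (hsD h0)
        have hr1 : 1 ≤ r := by
          rw [hr]
          exact Nat.sqrt_pos.2 hs0
        have h2 : 18 * w * (r + w) * D + 1 ≤ (D + 2) ^ 6 := by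
          have h3 : 18 * w * (r + w) ≤ 36 * (D * D) := by
            calc 18 * w * (r + w) ≤ 18 * w * (w + w) :=
                  Nat.mul_le_mul_left _ (Nat.add_le_add_right hwr.le _)
              _ = 36 * (w * w) := by ring
              _ ≤ 36 * (D * D) := Nat.mul_le_mul_left _ (Nat.mul_le_mul hwD hwD)
          have e : (D + 2) ^ 6 = 36 * (D * D) * D + 1 +
              (D ^ 6 + 12 * D ^ 5 + 60 * D ^ 4 + 124 * D ^ 3 + 240 * D ^ 2 + 192 * D + 63) := by
            ring
          rw [e]
          calc 18 * w * (r + w) * D + 1 ≤ 36 * (D * D) * D + 1 :=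
                Nat.add_le_add_right (Nat.mul_le_mul_right _ h3) _
            _ ≤ _ := Nat.le_add_right _ _
        calc (18 * w * (r + w) * D + 1) ^ (r + 1) ≤ ((D + 2) ^ 6) ^ (r + 1) :=
              Nat.pow_le_pow_left h2 _
          _ = (D + 2) ^ (6 * (r + 1)) := by rw [← pow_mul]
          _ ≤ (D + 2) ^ (4 * (r + w)) := Nat.pow_le_pow_right (by omega) (by omega)
  calc (m + 1) ^ (2 * w * (r + 1)) * (D + 1) ^ (18 * w * (r + w)) *
        (18 * w * (r + w) * D + 1) ^ (2 * w * (r + 1))
      ≤ (m + 1) ^ (2 * w * (r + w)) * (D + 2) ^ (18 * w * (r + w)) *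
        ((D + 2) ^ (4 * (r + w))) ^ (2 * w) := by
        refine Nat.mul_le_mul (Nat.mul_le_mul ?_ (Nat.pow_le_pow_left (by omega) _)) ?_
        · exact Nat.pow_le_pow_right (by omega) (Nat.mul_le_mul_left _ (by omega))
        · rw [show 2 * w * (r + 1) = (r + 1) * (2 * w) by ring, pow_mul]
          exact Nat.pow_le_pow_left key _
    _ = ((m + 1) ^ 2 * (D + 2) ^ 26) ^ (w * (r + w)) := by
        rw [mul_pow, ← pow_mul, ← pow_mul, ← pow_mul, mul_assoc, ← pow_add]
        congr 2
        · ring
        · ring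

end Pool.Agent.Lib.MP_64d474_lc.MG
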